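import Mathlib
import Pool.Agent.LibMaxTop.Index

set_option autoImplicit false

namespace Pool.Agent.Results.MP_e3b596_gt.Main

open Pool.Agent.LibMaxTop Filter Set Cardinal
open scoped Topology Pointwise

universe u

attribute [local instance] Ultrafilter.add Ultrafilter.addSemigroup

section topo

variable {G : Type u} [AddCommGroup G] (p : Ultrafilter G)

/-- the invariant topology of an idempotent ultrafilter -/
def topOf : TopologicalSpace G where
  IsOpen W := ∀ g ∈ W, ∀ᶠ y in (p : Filter G), g + y ∈ W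
  isOpen_univ := by
    intro g _
    exact Eventually.of_forall fun y => trivial
  isOpen_inter := by
    intro s t hs ht g hg
    filter_upwards [hs g hg.1, ht g hg.2] with y hy1 hy2
    exact ⟨hy1, hy2⟩
  isOpen_sUnion := by
    intro c hc g hg
    obtain ⟨t, ht, hgt⟩ := hg
    filter_upwards [hc t ht g hgt] with y hy
    exact ⟨t, ht, hy⟩

theorem isOpen_topOf {W : Set G} :
    IsOpen[topOf p] W ↔ ∀ g ∈ W, ∀ᶠ y in (p : Filter G), g + y ∈ W := Iff.rfl

variable {p}

theorem mem_nhds_topOf (hpp : p + p = p) {N : Set G} {g : G} :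
    N ∈ @nhds G (topOf p) g ↔ g ∈ N ∧ ∀ᶠ y in (p : Filter G), g + y ∈ N := by
  rw [@mem_nhds_iff _ (topOf p)]
  constructor
  · rintro ⟨t, htN, ht, hgt⟩
    refine ⟨htN hgt, ?_⟩
    filter_upwards [ht g hgt] with y hy
    exact htN hy
  · rintro ⟨hg, hN⟩
    refine ⟨{x | x ∈ N ∧ ∀ᶠ y in (p : Filter G), x + y ∈ N}, fun x hx => hx.1, ?_, hg, hN⟩
    intro x hx
    have h1 : ∀ᶠ y in (p : Filter G), ∀ᶠ z in (p : Filter G), x + (y + z) ∈ N :=
      (idem_iff hpp (fun w => x + w ∈ N)).2 hx.2
    filter_upwards [hx.2, h1] with y hy1 hy2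
    refine ⟨hy1, ?_⟩
    filter_upwards [hy2] with z hz
    rwa [add_assoc]

theorem mem_closure_topOf (hpp : p + p = p) {A : Set G} {x : G} :
    x ∈ @closure G (topOf p) A ↔ x ∈ A ∨ ∀ᶠ y in (p : Filter G), x + y ∈ A := by
  rw [@closure_eq_compl_interior_compl G (topOf p) A, Set.mem_compl_iff,
    @mem_interior_iff_mem_nhds G (topOf p), mem_nhds_topOf hpp]
  have h1 : (∀ᶠ y in (p : Filter G), x + y ∈ Aᶜ) ↔ ¬ ∀ᶠ y in (p : Filter G), x + y ∈ A :=
    Ultrafilter.eventually_not
  rw [h1, Set.mem_compl_iff]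
  tauto

theorem not_singleton (hpp : p + p = p) (h0 : ({0}ᶜ : Set G) ∈ p) (a : G) :
    ¬ ∀ᶠ y in (p : Filter G), y = a := by
  intro h
  have h1 : ∀ᶠ y in (p : Filter G), ∀ᶠ z in (p : Filter G), y + z = a :=
    (idem_iff hpp (fun w => w = a)).2 h
  obtain ⟨y, hy1, hy2⟩ := (h.and h1).exists
  obtain ⟨z, hz1, hz2⟩ := (h.and hy2).exists
  have h2 : a = 0 := by
    rw [hy1, hz1] at hz2
    simpa using hz2
  have h0' : ∀ᶠ y in (p : Filter G), y ≠ 0 := h0
  obtain ⟨w, hw1, hw2⟩ := (h.and h0').exists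
  exact hw2 (hw1.trans h2)

theorem topOf_t3 (hpp : p + p = p) (h0 : ({0}ᶜ : Set G) ∈ p)
    (hreg : ∀ N ∈ p, ∃ N' ∈ p, N' ⊆ N ∧
      ∀ g, g ≠ 0 → (∀ᶠ y in (p : Filter G), g + y ∈ N') → g ∈ N) :
    @T3Space G (topOf p) := by
  let _ : TopologicalSpace G := topOf p
  have hT1 : T1Space G := by
    refine ⟨fun x => ?_⟩
    rw [← closure_subset_iff_isClosed]
    intro z hz
    rcases (mem_closure_topOf hpp).1 hz with h | h
    · exact h
    · exfalso
      apply not_singleton hpp h0 (x - z)
      filter_upwards [h] with y hy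
      have : z + y = x := hy
      rw [← this]
      abel
  have hR : RegularSpace G := by
    refine RegularSpace.of_exists_mem_nhds_isClosed_subset fun g N hN => ?_
    rw [mem_nhds_topOf hpp] at hN
    obtain ⟨M', hM', hMM, hM⟩ := hreg {y | g + y ∈ N} hN.2
    let A : Set G := {x | x = g ∨ x - g ∈ M'}
    refine ⟨closure A, ?_, isClosed_closure, ?_⟩
    · refine mem_of_superset ?_ subset_closure
      rw [mem_nhds_topOf hpp]
      refine ⟨Or.inl rfl, ?_⟩
      filter_upwards [hM'] with y hy
      right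
      rwa [add_sub_cancel_left]
    · intro x hx
      have hsub : ∀ z ∈ A, z ∈ N := by
        rintro z (rfl | hz)
        · exact hN.1
        · have := hMM hz
          simpa using this
      rcases (mem_closure_topOf hpp).1 hx with h | h
      · exact hsub x h
      · by_cases hxg : x = g
        · rw [hxg]; exact hN.1
        · have h1 : ¬ ∀ᶠ y in (p : Filter G), y = g - x := not_singleton hpp h0 _
          have h2 : ∀ᶠ y in (p : Filter G), ¬ (y = g - x) := Ultrafilter.eventually_not.2 h1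
          have h3 : ∀ᶠ y in (p : Filter G), (x - g) + y ∈ M' := by
            filter_upwards [h, h2] with y hy1 hy2
            rcases hy1 with hy1 | hy1
            · exact absurd (eq_sub_of_add_eq' hy1) hy2
            · rwa [add_sub_right_comm] at hy1
          have h4 := hM (x - g) (sub_ne_zero.2 hxg) h3
          simpa using h4
  exact { toT0Space := inferInstance, toRegularSpace := hR }

end topo

/-- Every abelian group `G` whose cardinality `κ` is singular carries a topology which is
translation invariant, regular (and `T0`, hence Hausdorff), `κ`-bounded, has no isolated points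
and is maximal. -/
theorem result {G : Type u} [AddCommGroup G] (hG : (Cardinal.mk G).IsSingular) :
    ∃ τ : TopologicalSpace G,
      (∀ g : G, @Continuous G G τ τ (fun x => g + x)) ∧
      @T3Space G τ ∧
      (∀ U : Set G, U ∈ @nhds G τ 0 →
        ∃ F : Set G, Cardinal.mk F < Cardinal.mk G ∧ F + U = Set.univ) ∧
      (∀ x : G, ¬ IsOpen[τ] {x}) ∧
      ∀ τ' : TopologicalSpace G, τ' < τ → ∃ x : G, IsOpen[τ'] {x} := by
  obtain ⟨S, R, ι, en, ξ, hι, hen, hξ⟩ := exists_frame G hG
  obtain ⟨T, hT⟩ := R.exists_sys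
  obtain ⟨p, hp, d, hd, q, hq, hqq, hq0, hreg⟩ := T.exists_regular ι hι en hen ξ hξ
  have hunc : ℵ₀ < #G := by
    refine lt_of_le_of_ne hG.aleph0_le fun h => ?_
    rw [← h] at hG
    exact not_isSingular_aleph0 hG
  have hlarge : ∀ N ∈ q, Large N := by
    intro N hN
    rw [hq] at hN
    have h1 : {x | x + d x ∈ N} ∈ p := hN
    have h2 := hT p hp _ h1
    refine Large.of_cover (F := (fun c => -c) '' Set.range d) hG.aleph0_le ?_ (h2.mono ?_)
    · refine Cardinal.mk_image_le.trans_lt (lt_of_le_of_lt ?_ hunc)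
      exact Cardinal.le_aleph0_iff_set_countable.2 hd
    · intro x hx
      exact ⟨- d x, ⟨d x, ⟨x, rfl⟩, rfl⟩, x + d x, hx, by abel⟩
  refine ⟨topOf q, ?_, topOf_t3 hqq hq0 hreg, ?_, ?_, ?_⟩
  · intro g
    let _ : TopologicalSpace G := topOf q
    rw [continuous_def]
    intro W hW x hx
    have h1 := hW (g + x) hx
    filter_upwards [h1] with y hy
    show g + (x + y) ∈ W
    rwa [← add_assoc]
  · intro U hU
    rw [mem_nhds_topOf hqq] at hU
    have h1 : U ∈ q := by
      have h1 := hU.2
      simp only [zero_add] at h1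
      exact h1
    obtain ⟨F, hF, h2⟩ := hlarge U h1
    refine ⟨F, hF, Set.eq_univ_of_forall fun g => ?_⟩
    obtain ⟨f, hf, a, ha, e⟩ := h2 g
    exact ⟨f, hf, a, ha, e⟩
  · intro x hx
    apply not_singleton hqq hq0 0
    filter_upwards [hx x rfl] with y hy
    have : x + y = x := hy
    simpa using this
  · intro τ' hτ'
    have h1 : ¬ topOf q ≤ τ' := not_le_of_gt hτ'
    have h2 : ∃ U, IsOpen[τ'] U ∧ ¬ IsOpen[topOf q] U := by
      by_contra hcon
      push Not at hcon
      exact h1 fun U hU => hcon U hU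
    obtain ⟨U, hU, hU'⟩ := h2
    rw [isOpen_topOf] at hU'
    push Not at hU'
    obtain ⟨x, hx, hxU⟩ := hU'
    have h3 : ∀ᶠ y in (q : Filter G), ¬ (x + y ∈ U) := hxU
    have h4 : ({x} ∪ Uᶜ : Set G) ∈ @nhds G (topOf q) x := by
      rw [mem_nhds_topOf hqq]
      refine ⟨Or.inl rfl, ?_⟩
      filter_upwards [h3] with y hy
      exact Or.inr hy
    obtain ⟨V, hVsub, hV, hxV⟩ := (@mem_nhds_iff _ (topOf q) _ _).1 h4
    have hV' : IsOpen[τ'] V := hτ'.le V hV
    refine ⟨x, ?_⟩
    have h5 : V ∩ U = {x} := by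
      ext z
      constructor
      · rintro ⟨hz1, hz2⟩
        rcases hVsub hz1 with h | h
        · exact h
        · exact absurd hz2 h
      · intro hz
        have : z = x := hz
        subst this
        exact ⟨hxV, hx⟩
    rw [← h5]
    exact @IsOpen.inter G τ' V U hV' hU

end Pool.Agent.Results.MP_e3b596_gt.Main
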